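import Pool.Agent.Y958.GI.Stab

/-!
# The Gamma-interpolation conjecture fails on an open set of data

For every `n ≥ 3` the `n`-point data which satisfy all conditions `C_ν` (even the condition for all
Schur functions `υ`) and are not solvable have nonempty interior in the space of all data.

All definitions are those of the starting file `Counterexample`.
-/

set_option autoImplicit false

open Complex Metric

namespace Pool.Agent.Results.MP_2550b6_an.OpenSet

open Pool.Agent.Results.MP_2550b6_an.Counterexample Pool.Agent.Y958.GI Pool.Agent.H93R3.Gam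

lemma target_norm (n : ℕ) (j : Fin n) : ‖(target n j).1‖ ≤ 3 / 5 ∧ (target n j).2 = 0 := by
  have t1 : ‖(3 / 5 : ℂ)‖ ≤ 3 / 5 := by norm_num
  unfold target
  split_ifs
  · exact ⟨t1, rfl⟩
  · refine ⟨?_, rfl⟩
    show ‖-(3 / 5 : ℂ)‖ ≤ 3 / 5
    rw [norm_neg]; exact t1
  · refine ⟨?_, rfl⟩
    simp only [norm_zero]; norm_num

/-- For every `n ≥ 3` there is a nonempty open set `U` of pairs (nodes, targets) in
`ℂ^n × (ℂ × ℂ)^n`, all of which are `n`-point data (distinct nodes in the disc, targets in the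
symmetrised bidisc) which satisfy `C_ν` for all `ν`, even with all Schur functions `υ` in place of
the Blaschke products, but are not solvable. -/
theorem result (n : ℕ) (hn : 3 ≤ n) : ∃ U : Set ((Fin n → ℂ) × (Fin n → ℂ × ℂ)),
    IsOpen U ∧ U.Nonempty ∧ ∀ D ∈ U, Function.Injective D.1 ∧
      (∀ j, D.1 j ∈ Metric.ball (0 : ℂ) 1) ∧ (∀ j, D.2 j ∈ Gam) ∧
      (∀ ν : ℕ, Cond ν D.1 D.2) ∧
      (∀ υ : ℂ → ℂ, DifferentiableOn ℂ υ (Metric.ball 0 1) →
        (∀ x ∈ Metric.ball (0 : ℂ) 1, ‖υ x‖ ≤ 1) → CondAt υ D.1 D.2) ∧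
      ¬ GamSolvable D.1 D.2 := by
  obtain ⟨δ₀, hδ₀, h0⟩ := near_cond n hn
  obtain ⟨ε, hε⟩ : ∃ ε : ℝ, ε = min (δ₀ / 2) 1 := ⟨_, rfl⟩
  have hε0 : 0 < ε := by rw [hε]; exact lt_min (by linarith) one_pos
  have hεδ : ε ≤ δ₀ / 2 := by rw [hε]; exact min_le_left _ _
  obtain ⟨r, hr⟩ : ∃ r : ℝ, r = 1 / (1 + ε) := ⟨_, rfl⟩
  have hr0 : 0 < r := by rw [hr]; positivity
  have hr1 : r < 1 := by
    rw [hr, div_lt_one (by positivity)]; linarith
  have hrε : r * (1 + ε) = 1 := by rw [hr]; field_simp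
  obtain ⟨δ₁, hδ₁, h1⟩ := near_unsolvable n hn r hr0 hr1
  obtain ⟨δ, hδ⟩ : ∃ δ : ℝ, δ = min (δ₀ / 2) δ₁ := ⟨_, rfl⟩
  have hδp : 0 < δ := by rw [hδ]; exact lt_min (by linarith) hδ₁
  have hδa : δ ≤ δ₀ / 2 := by rw [hδ]; exact min_le_left _ _
  have hδb : δ ≤ δ₁ := by rw [hδ]; exact min_le_right _ _
  -- the expanded base data
  set c : (Fin n → ℂ) × (Fin n → ℂ × ℂ) :=
    (node n, fun j => (((1 + ε : ℝ) : ℂ) * (target n j).1, 0)) with hc
  refine ⟨ball c δ, isOpen_ball, ⟨c, mem_ball_self hδp⟩, ?_⟩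
  intro D hD
  rw [mem_ball, dist_eq_norm] at hD
  have k1 : ∀ j, ‖D.1 j - node n j‖ ≤ δ := fun j =>
    (norm_le_pi_norm (D - c).1 j).trans ((norm_fst_le (D - c)).trans hD.le)
  have k2 : ∀ j, ‖D.2 j - c.2 j‖ ≤ δ := fun j =>
    (norm_le_pi_norm (D - c).2 j).trans ((norm_snd_le (D - c)).trans hD.le)
  have k3 : ∀ j, ‖(D.2 j).1 - ((1 + ε : ℝ) : ℂ) * (target n j).1‖ ≤ δ := fun j =>
    (norm_fst_le (D.2 j - c.2 j)).trans (k2 j)
  have k4 : ∀ j, ‖(D.2 j).2‖ ≤ δ := fun j => by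
    have h2 := (norm_snd_le (D.2 j - c.2 j)).trans (k2 j)
    have h3 : (D.2 j - c.2 j).2 = (D.2 j).2 := by
      show (D.2 j).2 - 0 = (D.2 j).2
      rw [sub_zero]
    rwa [h3] at h2
  have k5 : ∀ j, ‖(D.2 j).1 - (target n j).1‖ ≤ δ₀ := by
    intro j
    have e : (D.2 j).1 - (target n j).1 =
        ((D.2 j).1 - ((1 + ε : ℝ) : ℂ) * (target n j).1) + (ε : ℂ) * (target n j).1 := by
      push_cast; ring
    rw [e]
    refine (norm_add_le _ _).trans ?_
    rw [norm_mul, Complex.norm_real, Real.norm_eq_abs, abs_of_pos hε0]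
    have h2 := k3 j
    have h3 : ε * ‖(target n j).1‖ ≤ δ₀ / 2 * 1 :=
      mul_le_mul hεδ ((target_norm n j).1.trans (by norm_num)) (norm_nonneg _) (by linarith)
    linarith
  obtain ⟨m1, m2, m3, m4⟩ := h0 D.1 D.2 (fun j => (k1 j).trans (by linarith)) k5 (fun j => by
    rw [(target_norm n j).2, sub_zero]
    exact (k4 j).trans (by linarith))
  refine ⟨m1, m2, m3, ?_, ?_, ?_⟩
  · intro ν d _ a b ha hb
    exact m4 _ fun j => blaschke_le a b ha hb _ (by simpa using m2 j)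
  · intro υ _ hυ
    exact m4 υ fun j => hυ _ (m2 j)
  · refine h1 D.1 D.2 (fun j => (k1 j).trans hδb) (fun j => ?_) (fun j => (k4 j).trans hδb)
      (fun j => by simpa using m2 j)
    have e : (r : ℂ) * (D.2 j).1 - (target n j).1 =
        r * ((D.2 j).1 - ((1 + ε : ℝ) : ℂ) * (target n j).1) := by
      have h2 : (r : ℂ) * ((1 + ε : ℝ) : ℂ) = 1 := by
        rw [← Complex.ofReal_mul, hrε, Complex.ofReal_one]
      linear_combination (target n j).1 * h2
    rw [e, norm_mul, Complex.norm_real, Real.norm_eq_abs, abs_of_pos hr0]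
    have h3 := k3 j
    have h4 := mul_le_mul hr1.le h3 (norm_nonneg _) zero_le_one
    linarith

end Pool.Agent.Results.MP_2550b6_an.OpenSet
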